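import Mathlib
import Pool.Agent.R761.BipLat.Main

/-!
# MP_a65550_al: a nontrivial lattice identity that holds in all bipartition lattices

In the variables `A = x_0`, `b = x_1`, `C = x_2`, `d = x_3` put `B = b ∧ d`, `m = A ∨ B`,
`p = d ∧ m`. The identity is `m ∧ (p ∨ C) = p ∨ (m ∧ (B ∨ ((A ∨ C) ∧ (p ∨ C))))`.
It holds in `Bip X` for every set `X`, it fails in a lattice with 11 elements, and, read as an
ortholattice identity, it fails in a finite ortholattice.
-/

namespace Pool.Agent.Results.MP_a65550_al.LatticeIdentity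

open R761.BipLat

theorem result :
    (∀ (X : Type) (v : ℕ → Bip X), lhs.eval v = rhs.eval v) ∧
    (∃ (L : Type) (_ : Lattice L) (_ : Finite L) (v : ℕ → L), lhs.eval v ≠ rhs.eval v) ∧
    (∀ (X : Type) (v : ℕ → Bip X), lhs.toO.eval v = rhs.toO.eval v) ∧
    (∃ (O : Type) (_ : OrthoLattice O) (_ : Finite O) (v : ℕ → O),
      lhs.toO.eval v ≠ rhs.toO.eval v) := by
  refine ⟨fun X v => identity v, nt1, fun X v => ?_, ?_⟩
  · rw [eval_toO, eval_toO]
    exact identity v
  · obtain ⟨L, iL, hL, v, hv⟩ := nt1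
    obtain ⟨O, iO, f, hf, hsup, hinf, hfin⟩ := nt2 L iL
    refine ⟨O, iO, hfin hL, fun i => f (v i), fun h => hv (hf ?_)⟩
    rw [eval_toO, eval_toO] at h
    have key : ∀ s : LTerm, s.eval (fun i => f (v i)) = f (s.eval v) := by
      intro s
      induction s with
      | var i => rfl
      | sup s t hs ht => simp only [LTerm.eval, hs, ht, hsup]
      | inf s t hs ht => simp only [LTerm.eval, hs, ht, hinf]
    rw [← key, ← key]
    exact h

end Pool.Agent.Results.MP_a65550_al.LatticeIdentity
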